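import Mathlib
import Pool.Agent.H.MP_8dd099_nt.Main

namespace Pool.Agent.Results.MP_8dd099_nt.Full

open Finset

noncomputable def KL (n : ℕ) : ℝ :=
  ∑ d ∈ n.divisors, (d : ℝ) * Real.log ((d : ℝ) / (2 * (Nat.totient d : ℝ)))

theorem result : {n : ℕ | 0 < n ∧ (∑ d ∈ n.divisors, d) < 2 * n ∧
    0 ≤ KL n ∧ ∀ d : ℕ, d ∣ n → d < n → KL d < 0}.Infinite :=
  Pool.Agent.H.MP_8dd099_nt.main

end Pool.Agent.Results.MP_8dd099_nt.Full
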